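import Mathlib

namespace Pool.Agent.Results.MP_e59eee_co.Counter

section
variable {P : Type} [PartialOrder P]

def IsDirectedSet (D : Set P) : Prop := D.Nonempty ∧ DirectedOn (· ≤ ·) D

def IsCompactElt (c : P) : Prop :=
  ∀ (D : Set P) (s : P), IsDirectedSet D → IsLUB D s → c ≤ s → ∃ d ∈ D, c ≤ d

def IsAlgebraicPoset (P : Type) [PartialOrder P] : Prop :=
  (∀ D : Set P, IsDirectedSet D → ∃ s, IsLUB D s) ∧
    ∀ x : P, ∃ D : Set P, IsDirectedSet D ∧ (∀ c ∈ D, IsCompactElt c) ∧ IsLUB D x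

def IsWeaklyAtomicPoset (P : Type) [PartialOrder P] : Prop :=
  ∀ x y : P, x < y → ∃ u v : P, x ≤ u ∧ v ≤ y ∧ u ⋖ v
end

open Order

lemma union_ideal {Q : Type} [Preorder Q] (D : Set (Ideal Q)) (h : IsDirectedSet D) :
    ∃ s : Ideal Q, IsLUB D s ∧ ∀ q, q ∈ s ↔ ∃ I ∈ D, q ∈ I := by
  have hI : IsIdeal {q | ∃ I ∈ D, q ∈ I} := by
    refine ⟨?_, ?_, ?_⟩
    · rintro a b hab ⟨I, hI, ha⟩
      exact ⟨I, hI, I.lower hab ha⟩
    · obtain ⟨I, hI⟩ := h.1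
      obtain ⟨q, hq⟩ := I.nonempty
      exact ⟨q, I, hI, hq⟩
    · rintro a ⟨I, hI, ha⟩ b ⟨J, hJ, hb⟩
      obtain ⟨K, hK, h1, h2⟩ := h.2 I hI J hJ
      obtain ⟨c, hc, h3, h4⟩ := K.directed a (h1 ha) b (h2 hb)
      exact ⟨c, ⟨K, hK, hc⟩, h3, h4⟩
  refine ⟨hI.toIdeal, ⟨fun I hI' q hq => ⟨I, hI', hq⟩, ?_⟩, fun q => Iff.rfl⟩
  rintro J hJ q ⟨I, hI', hq⟩
  exact hJ hI' hq

lemma alg (Q : Type) [Preorder Q] : IsAlgebraicPoset (Ideal Q) := by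
  refine ⟨fun D h => (union_ideal D h).imp fun _ h => h.1, fun x => ?_⟩
  refine ⟨{I | ∃ q ∈ x, I = Ideal.principal q}, ⟨?_, ?_⟩, ?_, ?_, ?_⟩
  · obtain ⟨q, hq⟩ := x.nonempty
    exact ⟨_, q, hq, rfl⟩
  · rintro _ ⟨a, ha, rfl⟩ _ ⟨b, hb, rfl⟩
    obtain ⟨c, hc, h1, h2⟩ := x.directed a ha b hb
    exact ⟨_, ⟨c, hc, rfl⟩, Ideal.principal_le_iff.mpr h1, Ideal.principal_le_iff.mpr h2⟩
  · rintro _ ⟨q, -, rfl⟩ D s hD hs hle
    obtain ⟨t, ht, ht2⟩ := union_ideal D hD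
    rw [hs.unique ht] at hle
    obtain ⟨I, hI, hq⟩ := (ht2 q).mp (Ideal.principal_le_iff.mp hle)
    exact ⟨I, hI, Ideal.principal_le_iff.mpr hq⟩
  · rintro _ ⟨q, hq, rfl⟩
    exact Ideal.principal_le_iff.mpr hq
  · intro J hJ q hq
    exact Ideal.principal_le_iff.mp (hJ ⟨q, hq, rfl⟩)

structure Q where
  a : ℚ
  n : ℕ

instance : Preorder Q where
  le p q := p = q ∨ (p.a < q.a ∧ p.n < q.n)
  le_refl _ := Or.inl rfl
  le_trans p q r h1 h2 := by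
    rcases h1 with rfl | h1
    · exact h2
    · rcases h2 with rfl | h2
      · exact Or.inr h1
      · exact Or.inr ⟨h1.1.trans h2.1, h1.2.trans h2.2⟩

lemma isI (r : ℚ) : IsIdeal {q : Q | q.a < r} := by
  refine ⟨?_, ⟨⟨r - 1, 0⟩, by simp⟩, ?_⟩
  · rintro p q (rfl | h) hp
    · exact hp
    · exact h.1.trans hp
  · intro p hp q hq
    obtain ⟨c, h1, h2⟩ := exists_between (max_lt hp hq : max p.a q.a < r)
    exact ⟨⟨c, p.n + q.n + 1⟩, h2, Or.inr ⟨(le_max_left _ _).trans_lt h1, by simp only; omega⟩,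
      Or.inr ⟨(le_max_right _ _).trans_lt h1, by simp only; omega⟩⟩

def I (r : ℚ) : Ideal Q := (isI r).toIdeal

lemma mem_I (r : ℚ) (q : Q) : q ∈ I r ↔ q.a < r := Iff.rfl

lemma up (J : Ideal Q) (h : I 0 ≤ J) (p : Q) (hp : p ∈ J) (k : ℕ) :
    ∃ q ∈ J, p.a < q.a ∧ k < q.n := by
  obtain ⟨q, hq, h1, h2⟩ := J.directed p hp ⟨-1, p.n + k + 1⟩ (h (by simp [mem_I]))
  have h3 : p.n + k + 1 ≤ q.n := by
    rcases h2 with rfl | h2
    · exact le_rfl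
    · exact h2.2.le
  rcases h1 with rfl | h1
  · omega
  · exact ⟨q, hq, h1.1, by omega⟩

lemma down (J : Ideal Q) (h : I 0 ≤ J) (p : Q) (hp : p ∈ J) (q : Q) (hq : q.a ≤ p.a) : q ∈ J := by
  obtain ⟨r, hr, h1, h2⟩ := up J h p hp q.n
  exact J.lower (Or.inr ⟨hq.trans_lt h1, h2⟩ : q ≤ r) hr

theorem result : ∃ (P : Type) (_ : PartialOrder P),
    IsAlgebraicPoset P ∧ ¬ IsWeaklyAtomicPoset P := by
  refine ⟨Ideal Q, inferInstance, alg Q, fun h => ?_⟩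
  obtain ⟨u, v, hu, -, huv⟩ := h (I 0) (I 1) (by
    refine lt_of_le_of_ne (fun q hq => (mem_I 1 q).mpr (lt_trans ((mem_I 0 q).mp hq) zero_lt_one)) (fun e => ?_)
    have : (⟨0, 0⟩ : Q) ∈ I 1 := by simp [mem_I]
    rw [← e, mem_I] at this
    simp at this)
  have hv := hu.trans huv.1.le
  obtain ⟨p, hpv, hpu⟩ : ∃ p, p ∈ v ∧ p ∉ u := by
    by_contra hh
    exact huv.1.not_ge (fun p hp => by_contra fun h' => hh ⟨p, hp, h'⟩)
  obtain ⟨q, hq, hpq, -⟩ := up v hv p hpv 0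
  refine huv.2 (c := I q.a) (lt_of_le_of_ne (fun r hr => ?_) (fun e => ?_))
    (lt_of_le_of_ne (fun r hr => ?_) (fun e => ?_))
  · by_contra hh
    exact hpu (down u hu r hr p (hpq.le.trans (not_lt.mp hh)))
  · exact hpu (e ▸ hpq)
  · exact down v hv q hq r (le_of_lt hr)
  · rw [← e, mem_I] at hq
    exact lt_irrefl _ hq

end Pool.Agent.Results.MP_e59eee_co.Counter
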